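import Pool.Agent.Helper650_SD.Lower

/-!
# The order of magnitude of `f_μ(m)`

`muOn G S` is `μ(G[S])`, the sum of the squared degrees of the subgraph induced by `S`; `fG G` is the minimum of
`μ(G[S]) + μ(G[V \ S])` over all vertex sets `S`, and `fmu m` is the maximum of `fG G` over the graphs with `m` edges
(a supremum in `ℕ`; the set is bounded, `Helper650_SD.bdd`). So `f_μ(m)` has order `m^{3/2}`.
-/

namespace Pool.Agent.Results.MP_6e2d11_co.OrderF

open Helper650_SD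

theorem result (m : ℕ) (hm : 1 ≤ m) :
    BddAbove {k | ∃ (n : ℕ) (G : SimpleGraph (Fin n)), Nat.card G.edgeSet = m ∧ k = fG G} ∧
    (√(2 * m) - 3) ^ 3 / 4 ≤ (fmu m : ℝ) ∧ (fmu m : ℝ) ≤ (√(2 * m)) ^ 3 :=
  ⟨bdd m, le_fmu m hm, fmu_le m⟩

end Pool.Agent.Results.MP_6e2d11_co.OrderF
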