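import Pool.Agent.Helper650_SD.Judicious

/-!
# The order of magnitude of `g_μ(m)`

`gG G` is the minimum of `max (μ(G[S])) (μ(G[V \ S]))` over all vertex sets `S`, and `gmu m` is the maximum of `gG G` over the
graphs with `m` edges. So `g_μ(m)` has order `m^{3/2}`.
-/

namespace Pool.Agent.Results.MP_6e2d11_co.OrderG

open Helper650_SD

theorem result (m : ℕ) (hm : 1 ≤ m) :
    BddAbove {k | ∃ (n : ℕ) (G : SimpleGraph (Fin n)), Nat.card G.edgeSet = m ∧ k = gG G} ∧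
    (√(2 * m) - 3) ^ 3 / 8 ≤ (gmu m : ℝ) ∧ (gmu m : ℝ) ≤ (√(2 * m)) ^ 3 :=
  ⟨bdd_g m, gmu_bounds m hm⟩

end Pool.Agent.Results.MP_6e2d11_co.OrderG
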